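import Pool.Agent.Helper41.CD.Step

/-!
# Constant depth: induction on the product depth
-/

set_option autoImplicit false

namespace Pool.Agent.Helper41.CD

open Finset Pool.Agent.Helper87.D3

/-- polynomials of product depth `k` over the class `base`: sums of at most `m` products of at
most `m` elements of the previous class -/
def Circ {σ K : Type} [Field K] (m : ℕ) (base : Set (MvPolynomial σ K)) :
    ℕ → Set (MvPolynomial σ K)
  | 0 => base
  | k + 1 => {F | ∃ (a : ℕ) (c : Fin a → ℕ) (f : (i : Fin a) → Fin (c i) → MvPolynomial σ K),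
      a ≤ m ∧ (∀ i, c i ≤ m) ∧ (∀ i j, f i j ∈ Circ m base k) ∧ F = ∑ i, ∏ j, f i j}

section Induction

variable {σ K B : Type} [Field K] [CharZero K] [CommRing B] [Algebra K B] {ν : B → ℝ → Prop}

/-- what is known about the image of a polynomial -/
structure GoodSer (M : ℕ → ℕ → Submodule K B) (ν : B → ℝ → Prop) (x y : ℝ) (F : Ser B) :
    Prop where
  mem : InB M F
  cst : ∃ c : K, cf 0 0 F = algebraMap K B c
  bd : Bd1 ν x y F

/-- one product gate and one sum gate -/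
theorem GoodSer.gate (h : Cost K ν) {M : ℕ → ℕ → Submodule K B} (hM : Big M)
    {HU HV x y x' y' x'' y'' : ℝ} {m : ℕ} (hL : Leaf M ν HU HV) (hx : 0 < x) (hy : 0 < y)
    (hxx : x ≤ x') (hyy : y ≤ y') (hnum : NumThr m HU HV x y x' y')
    (hnum' : NumThr m HU HV x' y' x'' y'') (a : ℕ) (c : Fin a → ℕ)
    (F : (i : Fin a) → Fin (c i) → Ser B) (ha : a ≤ m) (hc : ∀ i, c i ≤ m)
    (hF : ∀ i j, GoodSer M ν x y (F i j)) : GoodSer M ν x'' y'' (∑ i, ∏ j, F i j) := by
  classical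
  have hx' : 0 < x' := lt_of_lt_of_le hx hxx
  have hy' : 0 < y' := lt_of_lt_of_le hy hyy
  choose d hd using fun i j => (hF i j).cst
  have hp : ∀ i, Bd4 ν x' y' (∏ j, F i j) := fun i =>
    prod_step h hM hL hx hy hxx hyy hnum univ (by rw [card_univ, Fintype.card_fin]; exact hc i)
      (F i) (d i) (fun j _ => (hF i j).mem) (fun j _ => hd i j) (fun j _ => (hF i j).bd)
  have hi : ∀ i, InB M (∏ j, F i j) := fun i => InB.prod hM univ _ fun j _ => (hF i j).mem
  refine ⟨InB.sum univ _ fun i _ => hi i, ⟨∑ i, ∏ j, d i j, ?_⟩,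
    sum_thr h hL hx' hy' hnum' univ (by rw [card_univ, Fintype.card_fin]; exact ha) _
      (fun i _ => hi i) (fun i _ => hp i)⟩
  rw [← cf0_apply, map_sum, map_sum]
  refine sum_congr rfl fun i _ => ?_
  rw [map_prod, map_prod]
  refine prod_congr rfl fun j _ => ?_
  rw [cf0_apply]
  exact hd i j

/-- **the class induction** -/
theorem circ_good (h : Cost K ν) {M : ℕ → ℕ → Submodule K B} (hM : Big M) {HU HV : ℝ} {m : ℕ}
    (hL : Leaf M ν HU HV) (Φ : MvPolynomial σ K →+* Ser B) (base : Set (MvPolynomial σ K))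
    (X Y : ℕ → ℝ) (hX : 0 < X 0) (hY : 0 < Y 0) (k : ℕ)
    (hXm : ∀ n, n < 2 * k → X n ≤ X (n + 1)) (hYm : ∀ n, n < 2 * k → Y n ≤ Y (n + 1))
    (hnum : ∀ n, n < 2 * k → NumThr m HU HV (X n) (Y n) (X (n + 1)) (Y (n + 1)))
    (hbase : ∀ f ∈ base, GoodSer M ν (X 0) (Y 0) (Φ f)) :
    ∀ f ∈ Circ m base k, GoodSer M ν (X (2 * k)) (Y (2 * k)) (Φ f) := by
  have hpos : ∀ n, n ≤ 2 * k → 0 < X n ∧ 0 < Y n := by
    intro n
    induction n with
    | zero => intro _; exact ⟨hX, hY⟩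
    | succ n ih =>
      intro hn
      obtain ⟨h1, h2⟩ := ih (by omega)
      exact ⟨lt_of_lt_of_le h1 (hXm n (by omega)), lt_of_lt_of_le h2 (hYm n (by omega))⟩
  have key : ∀ l, l ≤ k → ∀ f ∈ Circ m base l, GoodSer M ν (X (2 * l)) (Y (2 * l)) (Φ f) := by
    intro l
    induction l with
    | zero => intro _ f hf; exact hbase f hf
    | succ l ih =>
      intro hl f hf
      obtain ⟨a, c, g, ha, hc, hg, rfl⟩ := hf
      have e1 : Φ (∑ i, ∏ j, g i j) = ∑ i, ∏ j, Φ (g i j) := by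
        rw [map_sum]
        exact sum_congr rfl fun i _ => by rw [map_prod]
      rw [e1]
      obtain ⟨h1, h2⟩ := hpos (2 * l) (by omega)
      exact GoodSer.gate h hM hL h1 h2 (hXm _ (by omega)) (hYm _ (by omega))
        (hnum (2 * l) (by omega)) (hnum (2 * l + 1) (by omega)) a c (fun i j => Φ (g i j)) ha hc
        fun i j => ih (by omega) _ (hg i j)
  exact key k le_rfl

/-- the cost of a coefficient of a sum of `T` elements of the class -/
theorem circ_cost (h : Cost K ν) {M : ℕ → ℕ → Submodule K B} (hM : Big M) {HU HV : ℝ} {m : ℕ}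
    (hL : Leaf M ν HU HV) (Φ : MvPolynomial σ K →+* Ser B) (base : Set (MvPolynomial σ K))
    (X Y : ℕ → ℝ) (hX : 0 < X 0) (hY : 0 < Y 0) (k : ℕ)
    (hXm : ∀ n, n < 2 * k → X n ≤ X (n + 1)) (hYm : ∀ n, n < 2 * k → Y n ≤ Y (n + 1))
    (hnum : ∀ n, n < 2 * k → NumThr m HU HV (X n) (Y n) (X (n + 1)) (Y (n + 1)))
    (hbase : ∀ f ∈ base, GoodSer M ν (X 0) (Y 0) (Φ f)) (T : ℕ)
    (C : Fin T → MvPolynomial σ K) (hC : ∀ t, C t ∈ Circ m base k) (b e : ℕ)
    (hbe : (b, e) ≠ (0, 0)) :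
    ν (cf b e (Φ (∑ t, C t))) (T * (X (2 * k) ^ b * Y (2 * k) ^ e)) := by
  rw [map_sum, cf_sum]
  refine h.mono (h.sum univ _ (fun _ => X (2 * k) ^ b * Y (2 * k) ^ e) fun t _ =>
    (circ_good h hM hL Φ base X Y hX hY k hXm hYm hnum hbase (C t) (hC t)).bd b e hbe) ?_
  rw [sum_const, nsmul_eq_mul, card_univ, Fintype.card_fin]

end Induction

end Pool.Agent.Helper41.CD
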