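import Pool.Agent.Helper41.CD.Class
import Pool.Agent.Helper59.CD.Base

/-!
# Constant depth: arbitrary polynomial gates of fan-in `w`

`poly_gate`: if the series `F i`, `i < w`, have growth `(x, y)`, then every polynomial in them
has growth `(4 w x, 4 w y)`. The class `Cls w0 w S k`: polynomials in `w` sums of `S` products of
`S` members of the previous class, over any commutative ring.
-/

set_option autoImplicit false

namespace Pool.Agent.Helper41.CD

open Finset Pool.Agent.Helper87.D3

section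
variable {K B : Type} [Field K] [CommRing B] [Algebra K B] {ν : B → ℝ → Prop}

/-- the convolution estimate, with a factor -/
theorem conv' (h : Cost K ν) {x y κ : ℝ} (hx : 0 < x) (hy : 0 < y) (hκ : 0 ≤ κ) {A H : Ser B}
    (b e : ℕ) (hA : ∀ i j : ℕ, (i, j) ≠ (0, 0) → ν (cf i j A) (κ * (x ^ i * y ^ j)))
    (hH : ∀ i j : ℕ, i + j < b + e → ν (cf i j H) (4 ^ (i + j) * x ^ i * y ^ j)) :
    ν (∑ p ∈ (antidiagonal b ×ˢ antidiagonal e).erase ((0, b), (0, e)),
      cf p.1.1 p.2.1 A * cf p.1.2 p.2.2 H) (κ * (4 ^ (b + e) * x ^ b * y ^ e)) := by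
  have h1 := h.sum ((antidiagonal b ×ˢ antidiagonal e).erase ((0, b), (0, e)))
    (fun p => cf p.1.1 p.2.1 A * cf p.1.2 p.2.2 H)
    (fun p => κ * (4 ^ (b + e) * x ^ b * y ^ e) *
      ((1 / 4 : ℝ) ^ p.1.1 * (1 / 4 : ℝ) ^ p.2.1)) ?_
  · refine h.mono h1 ?_
    rw [← mul_sum]
    have h2 : 0 ≤ κ * (4 ^ (b + e) * x ^ b * y ^ e) := by positivity
    have h3 := geom2_le b e
    nlinarith
  · intro p hp
    rw [mem_erase, mem_product, HasAntidiagonal.mem_antidiagonal,
      HasAntidiagonal.mem_antidiagonal] at hp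
    obtain ⟨hne, hp1, hp2⟩ := hp
    have hne2 : (p.1.1, p.2.1) ≠ (0, 0) := by
      intro h0
      rw [Prod.mk.injEq] at h0
      apply hne
      have e3 : p.1.2 = b := by omega
      have e4 : p.2.2 = e := by omega
      ext <;> simp [h0.1, h0.2, e3, e4]
    have hlt : p.1.2 + p.2.2 < b + e := by
      by_contra hlt
      apply hne2
      rw [Prod.mk.injEq]
      constructor <;> omega
    have h4 := h.mul (hA _ _ hne2) (hH _ _ hlt)
    refine h.mono h4 (le_of_eq ?_)
    rw [← hp1, ← hp2]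
    rw [show p.1.1 + p.1.2 + (p.2.1 + p.2.2) = (p.1.1 + p.2.1) + (p.1.2 + p.2.2) by ring]
    rw [pow_add 4 (p.1.1 + p.2.1), pow_add x, pow_add y, pow_add 4 p.1.1 p.2.1]
    have h5 : (4 : ℝ) ^ p.1.1 * (1 / 4) ^ p.1.1 = 1 := by rw [← mul_pow]; norm_num
    have h6 : (4 : ℝ) ^ p.2.1 * (1 / 4) ^ p.2.1 = 1 := by rw [← mul_pow]; norm_num
    calc κ * (x ^ p.1.1 * y ^ p.2.1) * (4 ^ (p.1.2 + p.2.2) * x ^ p.1.2 * y ^ p.2.2)
        = (4 ^ p.1.1 * (1 / 4) ^ p.1.1) * (4 ^ p.2.1 * (1 / 4) ^ p.2.1) *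
          (κ * (x ^ p.1.1 * y ^ p.2.1) * (4 ^ (p.1.2 + p.2.2) * x ^ p.1.2 * y ^ p.2.2)) := by
            rw [h5, h6]; ring
      _ = _ := by ring

/-- a polynomial is its constant term plus a combination of the variables -/
theorem exists_decomp {ι R : Type} [Fintype ι] [CommRing R] (Q : MvPolynomial ι R) :
    ∃ (q : R) (P : ι → MvPolynomial ι R),
      Q = MvPolynomial.C q + ∑ i, MvPolynomial.X i * P i := by
  classical
  induction Q using MvPolynomial.induction_on with
  | C a => exact ⟨a, fun _ => 0, by simp⟩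
  | add p q hp hq =>
    obtain ⟨a, P, hP⟩ := hp
    obtain ⟨a', P', hP'⟩ := hq
    refine ⟨a + a', fun i => P i + P' i, ?_⟩
    rw [hP, hP', map_add]
    simp only [mul_add, sum_add_distrib]
    ring
  | mul_X p i _ =>
    refine ⟨0, fun j => if j = i then p else 0, ?_⟩
    rw [map_zero, zero_add, sum_eq_single i]
    · beta_reduce
      rw [if_pos rfl, mul_comm]
    · intro j _ hj
      beta_reduce
      rw [if_neg hj, mul_zero]
    · intro h
      exact absurd (mem_univ _) h

/-- any polynomial in `w` series without constant term -/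
theorem poly_gate_zero (h : Cost K ν) {x y : ℝ} (hx : 0 < x) (hy : 0 < y) {w : ℕ} (hw : 1 ≤ w)
    (F : Fin w → Ser B) (h0 : ∀ i, cf 0 0 (F i) = 0) (hF : ∀ i, Bd1 ν x y (F i))
    (Q : MvPolynomial (Fin w) K) : Bd4 ν (w * x) (w * y) (MvPolynomial.aeval F Q) := by
  have hw0 : (0 : ℝ) < w := by exact_mod_cast hw
  have key : ∀ n b e, b + e = n → ∀ Q : MvPolynomial (Fin w) K,
      ν (cf b e (MvPolynomial.aeval F Q)) (4 ^ (b + e) * (w * x) ^ b * (w * y) ^ e) := by
    intro n
    induction n using Nat.strong_induction_on with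
    | _ n ih =>
      intro b e hbe Q
      obtain ⟨q, P, rfl⟩ := exists_decomp Q
      have e1 : cf b e (MvPolynomial.aeval F
          (MvPolynomial.C q + ∑ i, MvPolynomial.X i * P i)) =
          cf b e (cst (algebraMap K B q)) + ∑ i, ∑ p ∈ (antidiagonal b ×ˢ antidiagonal e).erase
            ((0, b), (0, e)), cf p.1.1 p.2.1 (F i) *
              cf p.1.2 p.2.2 (MvPolynomial.aeval F (P i)) := by
        rw [map_add, map_sum, cf_add, cf_sum, MvPolynomial.aeval_C, Helper59.CD.algebraMap_ser]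
        congr 1
        refine sum_congr rfl fun i _ => ?_
        rw [map_mul, MvPolynomial.aeval_X, cf_mul', h0 i, zero_mul, zero_add]
      rw [e1, cf_cst]
      by_cases hb : b = 0 ∧ e = 0
      · obtain ⟨rfl, rfl⟩ := hb
        have h4 : (antidiagonal 0 ×ˢ antidiagonal 0).erase (((0 : ℕ), 0), (0, 0)) = ∅ := by
          simp
        rw [h4]
        simpa using h.scalar q
      · rw [if_neg hb, zero_add]
        have hne : (b, e) ≠ (0, 0) := fun hh => hb (Prod.mk.inj hh)
        have h5 := h.sum univ (fun i => ∑ p ∈ (antidiagonal b ×ˢ antidiagonal e).erase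
            ((0, b), (0, e)), cf p.1.1 p.2.1 (F i) *
              cf p.1.2 p.2.2 (MvPolynomial.aeval F (P i)))
          (fun _ => (1 / w : ℝ) * (4 ^ (b + e) * (w * x) ^ b * (w * y) ^ e)) fun i _ =>
          conv' h (by positivity) (by positivity) (by positivity) b e (fun i' j' hij => by
            refine h.mono (hF i i' j' hij) ?_
            rw [mul_pow, mul_pow]
            have h6 : (1 : ℝ) ≤ 1 / w * (w : ℝ) ^ (i' + j') := by
              have h7 : i' + j' ≠ 0 := by
                intro h8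
                apply hij
                rw [Prod.mk.injEq]
                constructor <;> omega
              obtain ⟨l, hl⟩ := Nat.exists_eq_succ_of_ne_zero h7
              rw [hl, Nat.succ_eq_add_one, pow_succ]
              have h9 : (1 : ℝ) ≤ (w : ℝ) ^ l := one_le_pow₀ (by exact_mod_cast hw)
              calc (1 : ℝ) ≤ (w : ℝ) ^ l := h9
                _ = _ := by field_simp
            calc x ^ i' * y ^ j' = 1 * (x ^ i' * y ^ j') := by ring
              _ ≤ 1 / w * (w : ℝ) ^ (i' + j') * (x ^ i' * y ^ j') :=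
                mul_le_mul_of_nonneg_right h6 (by positivity)
              _ = _ := by rw [pow_add]; ring)
            fun i' j' hij => ih (i' + j') (hbe ▸ hij) i' j' rfl (P i)
        refine h.mono h5 (le_of_eq ?_)
        rw [sum_const, nsmul_eq_mul, card_univ, Fintype.card_fin]
        field_simp
  exact fun b e => key _ b e rfl Q

/-- any polynomial in `w` series of growth `(x, y)` -/
theorem poly_gate (h : Cost K ν) {x y : ℝ} (hx : 0 < x) (hy : 0 < y) {w : ℕ} (hw : 1 ≤ w)
    (F : Fin w → Ser B) (c : Fin w → K) (h0 : ∀ i, cf 0 0 (F i) = algebraMap K B (c i))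
    (hF : ∀ i, Bd1 ν x y (F i)) (Q : MvPolynomial (Fin w) K) :
    Bd1 ν (4 * w * x) (4 * w * y) (MvPolynomial.aeval F Q) := by
  have h1 := poly_gate_zero h hx hy hw (fun i => F i - cst (algebraMap K B (c i)))
    (fun i => by rw [cf_sub, h0, cf_cst, if_pos ⟨rfl, rfl⟩, sub_self])
    (fun i b e hbe => by
      have hb : ¬(b = 0 ∧ e = 0) := fun hh => hbe (by rw [hh.1, hh.2])
      rw [cf_sub, cf_cst, if_neg hb, sub_zero]
      exact hF i b e hbe)
    (MvPolynomial.bind₁ (fun i => MvPolynomial.X i + MvPolynomial.C (c i)) Q)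
  have e1 : MvPolynomial.aeval (fun i => F i - cst (algebraMap K B (c i)))
      (MvPolynomial.bind₁ (fun i => MvPolynomial.X i + MvPolynomial.C (c i)) Q) =
      MvPolynomial.aeval F Q := by
    rw [MvPolynomial.aeval_bind₁]
    congr 1
    congr 1
    funext i
    rw [map_add, MvPolynomial.aeval_X, MvPolynomial.aeval_C, Helper59.CD.algebraMap_ser,
      sub_add_cancel]
  rw [e1] at h1
  intro b e hbe
  refine h.mono (h1 b e) (le_of_eq ?_)
  rw [mul_assoc 4 (w : ℝ) x, mul_assoc 4 (w : ℝ) y, mul_pow 4, mul_pow 4, pow_add]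
  ring

end

/-- circuits of constant depth: members of the class `0` are arbitrary polynomials in `w0` affine
forms; members of the class `k + 1` are arbitrary polynomials in `w` sums of `S` products of `S`
members of the class `k` -/
def Cls {σ R : Type} [CommRing R] (w0 w S : ℕ) : ℕ → Set (MvPolynomial σ R)
  | 0 => {f | ∃ (L : Fin w0 → MvPolynomial σ R) (Q : MvPolynomial (Fin w0) R),
      (∀ i, (L i).totalDegree ≤ 1) ∧ f = MvPolynomial.aeval L Q}
  | k + 1 => {f | ∃ (F : Fin w → Fin S → Fin S → MvPolynomial σ R)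
      (Q : MvPolynomial (Fin w) R), (∀ l i j, F l i j ∈ Cls w0 w S k) ∧
        f = MvPolynomial.aeval (fun l => ∑ i, ∏ j, F l i j) Q}

section Induction

variable {σ K B : Type} [Field K] [CharZero K] [CommRing B] [Algebra K B] {ν : B → ℝ → Prop}

/-- the numerical hypotheses on the growth sequences -/
structure Growth (w S : ℕ) (HU HV : ℝ) (L : ℕ) (X Y : ℕ → ℝ) : Prop where
  X0 : 0 < X 0
  Y0 : 0 < Y 0
  X1 : ∀ n, n < L → 4 * w * X n ≤ X (n + 1)
  Y1 : ∀ n, n < L → 4 * w * Y n ≤ Y (n + 1)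
  thr : ∀ n, n < L →
    NumThr S HU HV (4 * w * X n) (4 * w * Y n) (X (n + 1)) (Y (n + 1))

theorem Growth.pos {w S : ℕ} {HU HV : ℝ} {L : ℕ} {X Y : ℕ → ℝ} (hw : 1 ≤ w)
    (hG : Growth w S HU HV L X Y) : ∀ n, n ≤ L → 0 < X n ∧ 0 < Y n := by
  have hw0 : (0 : ℝ) < w := by exact_mod_cast hw
  intro n
  induction n with
  | zero => intro _; exact ⟨hG.X0, hG.Y0⟩
  | succ n ih =>
    intro hn
    obtain ⟨h1, h2⟩ := ih (by omega)
    exact ⟨lt_of_lt_of_le (by positivity) (hG.X1 n (by omega)),
      lt_of_lt_of_le (by positivity) (hG.Y1 n (by omega))⟩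

theorem NumThr.mono_right {m HU HV x y x' y' : ℝ} (hm : 0 ≤ m) (hx : 0 < x)
    {u v : ℝ} (hu : 0 < u) (hv : 0 < v) (hux : u ≤ x) (hvy : v ≤ y)
    (h : NumThr m HU HV x y x' y') : NumThr m HU HV u v x' y' := by
  intro b e hbe
  rcases h b e hbe with h1 | h1 | h1
  · left
    refine le_trans ?_ h1
    have h2 : u ^ b ≤ x ^ b := pow_le_pow_left₀ hu.le hux b
    have h3 : v ^ e ≤ y ^ e := pow_le_pow_left₀ hv.le hvy e
    have h4 : 0 ≤ m * 4 ^ (b + e) := by positivity
    apply mul_le_mul (mul_le_mul_of_nonneg_left h2 h4) h3 (by positivity)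
    exact mul_nonneg h4 (by positivity)
  · exact Or.inr (Or.inl h1)
  · exact Or.inr (Or.inr h1)

/-- **the class induction**, with arbitrary gates -/
theorem cls_good (h : Cost K ν) {M : ℕ → ℕ → Submodule K B} (hM : Big M) {HU HV : ℝ}
    {w0 w S : ℕ} (hw : 1 ≤ w) (hL : Leaf M ν HU HV) (Φ : MvPolynomial σ K →ₐ[K] Ser B)
    (X Y : ℕ → ℝ) (k : ℕ) (hG : Growth w S HU HV (2 * k) X Y)
    (hbase : ∀ f ∈ Cls (R := K) w0 w S 0, GoodSer M ν (4 * w * X 0) (4 * w * Y 0) (Φ f)) :
    ∀ f ∈ Cls w0 w S k, GoodSer M ν (4 * w * X (2 * k)) (4 * w * Y (2 * k)) (Φ f) := by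
  have hw0 : (1 : ℝ) ≤ w := by exact_mod_cast hw
  have hw1 : (0 : ℝ) < w := by linarith
  have key : ∀ l, l ≤ k → ∀ f ∈ Cls w0 w S l,
      GoodSer M ν (4 * w * X (2 * l)) (4 * w * Y (2 * l)) (Φ f) := by
    intro l
    induction l with
    | zero => intro _ f hf; exact hbase f hf
    | succ l ih =>
      intro hl f hf
      obtain ⟨F, Q, hF, rfl⟩ := hf
      obtain ⟨h1, h2⟩ := hG.pos hw (2 * l) (by omega)
      obtain ⟨h3, h4⟩ := hG.pos hw (2 * l + 1) (by omega)
      obtain ⟨h5, h6⟩ := hG.pos hw (2 * (l + 1)) (by omega)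
      have hS : ∀ t : Fin w, GoodSer M ν (X (2 * (l + 1))) (Y (2 * (l + 1)))
          (∑ i, ∏ j, Φ (F t i j)) := by
        intro t
        refine GoodSer.gate h hM hL (by positivity) (by positivity) (hG.X1 _ (by omega))
          (hG.Y1 _ (by omega)) (hG.thr (2 * l) (by omega)) ?_ S (fun _ => S)
          (fun i j => Φ (F t i j)) le_rfl (fun _ => le_rfl)
          (fun i j => ih (by omega) _ (hF t i j))
        refine NumThr.mono_right (Nat.cast_nonneg _) (x := 4 * w * X (2 * l + 1))
          (y := 4 * w * Y (2 * l + 1)) (by positivity) h3 h4 ?_ ?_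
          (hG.thr (2 * l + 1) (by omega))
        · nlinarith
        · nlinarith
      choose d hd using fun t => (hS t).cst
      have e1 : Φ (MvPolynomial.aeval (fun l => ∑ i, ∏ j, F l i j) Q) =
          MvPolynomial.aeval (fun t => ∑ i, ∏ j, Φ (F t i j)) Q := by
        rw [MvPolynomial.comp_aeval_apply]
        congr 1
        congr 1
        funext t
        rw [map_sum]
        exact sum_congr rfl fun i _ => by rw [map_prod]
      rw [e1]
      refine ⟨Helper59.CD.InB.aeval hM _ (fun t => (hS t).mem) Q, ?_,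
        poly_gate h h5 h6 hw _ d hd (fun t => (hS t).bd) Q⟩
      refine ⟨MvPolynomial.eval d Q, ?_⟩
      induction Q using MvPolynomial.induction_on with
      | C c =>
        rw [MvPolynomial.aeval_C, Helper59.CD.algebraMap_ser, cf_cst, if_pos ⟨rfl, rfl⟩,
          MvPolynomial.eval_C]
      | add p q hp hq =>
        rw [map_add, cf_add, hp, hq, map_add, map_add]
        all_goals
          rw [MvPolynomial.comp_aeval_apply]
          congr 1
          congr 1
          funext t
          rw [map_sum]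
          exact sum_congr rfl fun i _ => by rw [map_prod]
      | mul_X p i hp =>
        rw [map_mul, MvPolynomial.aeval_X, cf_zero_zero_mul, hp, map_mul, MvPolynomial.eval_X,
          map_mul, hd]
        rw [MvPolynomial.comp_aeval_apply]
        congr 1
        congr 1
        funext t
        rw [map_sum]
        exact sum_congr rfl fun i _ => by rw [map_prod]
  exact key k le_rfl

/-- **the cost of a sum of `T` products** of `S` members of the class `k` -/
theorem cls_cost (h : Cost K ν) {M : ℕ → ℕ → Submodule K B} (hM : Big M) {HU HV : ℝ}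
    {w0 w S : ℕ} (hw : 1 ≤ w) (hL : Leaf M ν HU HV) (Φ : MvPolynomial σ K →ₐ[K] Ser B)
    (X Y : ℕ → ℝ) (k : ℕ) (hG : Growth w S HU HV (2 * k + 1) X Y)
    (hbase : ∀ f ∈ Cls (R := K) w0 w S 0, GoodSer M ν (4 * w * X 0) (4 * w * Y 0) (Φ f))
    (T : ℕ) (f : Fin T → Fin S → MvPolynomial σ K) (hf : ∀ i j, f i j ∈ Cls w0 w S k)
    (b e : ℕ) :
    ν (cf b e (Φ (∑ i, ∏ j, f i j)))
      (T * (4 ^ (b + e) * X (2 * k + 1) ^ b * Y (2 * k + 1) ^ e)) := by
  have hw1 : (0 : ℝ) < w := by exact_mod_cast hw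
  have hG' : Growth w S HU HV (2 * k) X Y := ⟨hG.X0, hG.Y0, fun n hn => hG.X1 n (by omega),
    fun n hn => hG.Y1 n (by omega), fun n hn => hG.thr n (by omega)⟩
  have hgood := cls_good h hM hw hL Φ X Y k hG' hbase
  obtain ⟨h1, h2⟩ := hG.pos hw (2 * k) (by omega)
  rw [map_sum, cf_sum]
  refine h.mono (h.sum univ _
    (fun _ => 4 ^ (b + e) * X (2 * k + 1) ^ b * Y (2 * k + 1) ^ e) fun i _ => ?_) ?_
  · rw [map_prod]
    choose d hd using fun j => (hgood (f i j) (hf i j)).cst
    exact prod_step h hM hL (by positivity) (by positivity) (hG.X1 _ (by omega))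
      (hG.Y1 _ (by omega)) (hG.thr (2 * k) (by omega)) univ
      (by rw [card_univ, Fintype.card_fin]) (fun j => Φ (f i j)) d
      (fun j _ => (hgood (f i j) (hf i j)).mem) (fun j _ => hd j)
      (fun j _ => (hgood (f i j) (hf i j)).bd) b e
  · rw [sum_const, nsmul_eq_mul, card_univ, Fintype.card_fin]

end Induction

end Pool.Agent.Helper41.CD
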