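import Pool.Agent.Helper87.D3.Series

/-!
# Constant depth: a product gate and a sum gate with respect to a submultiplicative cost

`Cost K ν`: an abstract submultiplicative cost (the number of separable terms, weighted).
`Bd1 ν x y F`: the coefficient `(b, e) ≠ (0, 0)` of `F` has cost at most `x ^ b * y ^ e`;
`Bd4 ν x y F`: every coefficient has cost at most `4 ^ (b + e) * x ^ b * y ^ e`.
The convolution lemma `conv` contains the only estimate: `1 / (1 - 1/4) ^ 2 - 1 = 7/9 < 1`.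
-/

set_option autoImplicit false

namespace Pool.Agent.Helper41.CD

open Finset Pool.Agent.Helper87.D3

/-- a submultiplicative cost which does not see scalars -/
structure Cost (K : Type) {B : Type} [Field K] [CommRing B] [Algebra K B]
    (ν : B → ℝ → Prop) : Prop where
  nonneg : ∀ {f : B} {a : ℝ}, ν f a → 0 ≤ a
  mono : ∀ {f : B} {a b : ℝ}, ν f a → a ≤ b → ν f b
  zero : ν 0 0
  one : ν 1 1
  add : ∀ {f g : B} {a b : ℝ}, ν f a → ν g b → ν (f + g) (a + b)
  mul : ∀ {f g : B} {a b : ℝ}, ν f a → ν g b → ν (f * g) (a * b)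
  smul : ∀ (c : K) {f : B} {a : ℝ}, ν f a → ν (c • f) a

variable {K B : Type} [Field K] [CommRing B] [Algebra K B] {ν : B → ℝ → Prop}

theorem Cost.sum (h : Cost K ν) {ι : Type} (s : Finset ι) (f : ι → B) (a : ι → ℝ)
    (hf : ∀ i ∈ s, ν (f i) (a i)) : ν (∑ i ∈ s, f i) (∑ i ∈ s, a i) := by
  classical
  induction s using Finset.induction_on with
  | empty => simpa using h.zero
  | insert i s hi ih =>
    rw [sum_insert hi, sum_insert hi]
    exact h.add (hf i (mem_insert_self _ _)) (ih fun j hj => hf j (mem_insert_of_mem hj))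

theorem Cost.scalar (h : Cost K ν) (c : K) : ν (algebraMap K B c) 1 := by
  rw [Algebra.algebraMap_eq_smul_one]
  exact h.smul c h.one

/-- bound for the coefficients other than the constant one -/
def Bd1 (ν : B → ℝ → Prop) (x y : ℝ) (F : Ser B) : Prop :=
  ∀ b e : ℕ, (b, e) ≠ (0, 0) → ν (cf b e F) (x ^ b * y ^ e)

/-- bound for all coefficients -/
def Bd4 (ν : B → ℝ → Prop) (x y : ℝ) (F : Ser B) : Prop :=
  ∀ b e : ℕ, ν (cf b e F) (4 ^ (b + e) * x ^ b * y ^ e)

theorem geom_le (n : ℕ) : ∑ i ∈ antidiagonal n, (1 / 4 : ℝ) ^ i.1 ≤ 4 / 3 := by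
  rw [Finset.Nat.sum_antidiagonal_eq_sum_range_succ_mk]
  have h2 := geom_sum_eq (show (1 / 4 : ℝ) ≠ 1 by norm_num) (n + 1)
  rw [h2, div_le_iff_of_neg (by norm_num)]
  have h3 : (0 : ℝ) ≤ (1 / 4 : ℝ) ^ (n + 1) := by positivity
  linarith

theorem geom2_le (b e : ℕ) :
    ∑ p ∈ (antidiagonal b ×ˢ antidiagonal e).erase ((0, b), (0, e)),
      (1 / 4 : ℝ) ^ p.1.1 * (1 / 4 : ℝ) ^ p.2.1 ≤ 7 / 9 := by
  have hmem : ((0, b), (0, e)) ∈ antidiagonal b ×ˢ antidiagonal e := by simp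
  have h1 := add_sum_erase _ (fun p : (ℕ × ℕ) × (ℕ × ℕ) =>
    (1 / 4 : ℝ) ^ p.1.1 * (1 / 4 : ℝ) ^ p.2.1) hmem
  simp only [pow_zero, one_mul] at h1
  have h2 : ∑ p ∈ antidiagonal b ×ˢ antidiagonal e,
      (1 / 4 : ℝ) ^ p.1.1 * (1 / 4 : ℝ) ^ p.2.1 =
      (∑ i ∈ antidiagonal b, (1 / 4 : ℝ) ^ i.1) * ∑ j ∈ antidiagonal e, (1 / 4 : ℝ) ^ j.1 := by
    rw [sum_mul_sum, sum_product]
  have h3 : (∑ i ∈ antidiagonal b, (1 / 4 : ℝ) ^ i.1) * ∑ j ∈ antidiagonal e, (1 / 4 : ℝ) ^ j.1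
      ≤ 4 / 3 * (4 / 3) := by
    apply mul_le_mul (geom_le b) (geom_le e) (sum_nonneg fun i _ => by positivity) (by norm_num)
  linarith

/-- the convolution estimate -/
theorem conv (h : Cost K ν) {x y : ℝ} (hx : 0 < x) (hy : 0 < y) {A H : Ser B} (b e : ℕ)
    (hA : Bd1 ν x y A)
    (hH : ∀ i j : ℕ, i + j < b + e → ν (cf i j H) (4 ^ (i + j) * x ^ i * y ^ j)) :
    ν (∑ p ∈ (antidiagonal b ×ˢ antidiagonal e).erase ((0, b), (0, e)),
      cf p.1.1 p.2.1 A * cf p.1.2 p.2.2 H) (4 ^ (b + e) * x ^ b * y ^ e) := by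
  have h1 := h.sum ((antidiagonal b ×ˢ antidiagonal e).erase ((0, b), (0, e)))
    (fun p => cf p.1.1 p.2.1 A * cf p.1.2 p.2.2 H)
    (fun p => (4 ^ (b + e) * x ^ b * y ^ e) * ((1 / 4 : ℝ) ^ p.1.1 * (1 / 4 : ℝ) ^ p.2.1)) ?_
  · refine h.mono h1 ?_
    rw [← mul_sum]
    have h2 : 0 < 4 ^ (b + e) * x ^ b * y ^ e := by positivity
    have h3 := geom2_le b e
    nlinarith
  · intro p hp
    rw [mem_erase, mem_product, HasAntidiagonal.mem_antidiagonal,
      HasAntidiagonal.mem_antidiagonal] at hp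
    obtain ⟨hne, hp1, hp2⟩ := hp
    have hne2 : (p.1.1, p.2.1) ≠ (0, 0) := by
      intro h0
      rw [Prod.mk.injEq] at h0
      apply hne
      have e3 : p.1.2 = b := by omega
      have e4 : p.2.2 = e := by omega
      ext <;> simp [h0.1, h0.2, e3, e4]
    have hlt : p.1.2 + p.2.2 < b + e := by
      by_contra hlt
      apply hne2
      rw [Prod.mk.injEq]
      constructor <;> omega
    have h4 := h.mul (hA _ _ hne2) (hH _ _ hlt)
    refine h.mono h4 (le_of_eq ?_)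
    rw [← hp1, ← hp2]
    rw [show p.1.1 + p.1.2 + (p.2.1 + p.2.2) = (p.1.1 + p.2.1) + (p.1.2 + p.2.2) by ring]
    rw [pow_add 4 (p.1.1 + p.2.1), pow_add x, pow_add y, pow_add 4 p.1.1 p.2.1]
    have h5 : (4 : ℝ) ^ p.1.1 * (1 / 4) ^ p.1.1 = 1 := by rw [← mul_pow]; norm_num
    have h6 : (4 : ℝ) ^ p.2.1 * (1 / 4) ^ p.2.1 = 1 := by rw [← mul_pow]; norm_num
    calc x ^ p.1.1 * y ^ p.2.1 * (4 ^ (p.1.2 + p.2.2) * x ^ p.1.2 * y ^ p.2.2)
        = (4 ^ p.1.1 * (1 / 4) ^ p.1.1) * (4 ^ p.2.1 * (1 / 4) ^ p.2.1) *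
          (x ^ p.1.1 * y ^ p.2.1 * (4 ^ (p.1.2 + p.2.2) * x ^ p.1.2 * y ^ p.2.2)) := by
            rw [h5, h6]; ring
      _ = _ := by ring

/-- expansion of a coefficient of a product, first term apart -/
theorem cf_mul' (b e : ℕ) (F G : Ser B) : cf b e (F * G) = cf 0 0 F * cf b e G +
    ∑ p ∈ (antidiagonal b ×ˢ antidiagonal e).erase ((0, b), (0, e)),
      cf p.1.1 p.2.1 F * cf p.1.2 p.2.2 G := by
  rw [cf_mul, ← sum_product']
  have hmem : ((0, b), (0, e)) ∈ antidiagonal b ×ˢ antidiagonal e := by simp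
  rw [← add_sum_erase _ _ hmem]

/-- multiplication by a series without constant term -/
theorem Bd4.mul_of_zero (h : Cost K ν) {x y : ℝ} (hx : 0 < x) (hy : 0 < y) {A H : Ser B}
    (hA0 : cf 0 0 A = 0) (hA : Bd1 ν x y A) (hH : Bd4 ν x y H) : Bd4 ν x y (A * H) := by
  intro b e
  rw [cf_mul', hA0, zero_mul, zero_add]
  exact conv h hx hy b e hA fun i j _ => hH i j

/-- the inverse series -/
theorem Bd4.inv (h : Cost K ν) {x y : ℝ} (hx : 0 < x) (hy : 0 < y) {F G : Ser B}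
    (hFG : F * G = 1) {c : K} (hc : c ≠ 0) (h0 : cf 0 0 F = algebraMap K B c)
    (hF : Bd1 ν x y F) : Bd4 ν x y G := by
  have key : ∀ n b e, b + e = n → ν (cf b e G) (4 ^ (b + e) * x ^ b * y ^ e) := by
    intro n
    induction n using Nat.strong_induction_on with
    | _ n ih =>
      intro b e hbe
      have h1 := cf_mul' b e F G
      rw [hFG, h0, ← Algebra.smul_def] at h1
      have h2 := conv h hx hy b e hF (H := G) (fun i j hij => ih (i + j) (hbe ▸ hij) i j rfl)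
      by_cases hb : b = 0 ∧ e = 0
      · obtain ⟨rfl, rfl⟩ := hb
        have h3 : cf 0 0 G = c⁻¹ • (1 : B) := by
          rw [cf_one, if_pos ⟨rfl, rfl⟩] at h1
          have h4 : (antidiagonal 0 ×ˢ antidiagonal 0).erase (((0 : ℕ), 0), (0, 0)) = ∅ := by
            simp
          rw [h4, sum_empty, add_zero] at h1
          rw [h1, smul_smul, inv_mul_cancel₀ hc, one_smul]
        rw [h3]
        simpa using h.smul c⁻¹ h.one
      · rw [cf_one, if_neg hb] at h1
        have h3 : cf b e G = (-c⁻¹) • ∑ p ∈ (antidiagonal b ×ˢ antidiagonal e).erase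
            ((0, b), (0, e)), cf p.1.1 p.2.1 F * cf p.1.2 p.2.2 G := by
          have h4 : c • cf b e G = -∑ p ∈ (antidiagonal b ×ˢ antidiagonal e).erase
            ((0, b), (0, e)), cf p.1.1 p.2.1 F * cf p.1.2 p.2.2 G :=
            eq_neg_of_add_eq_zero_left h1.symm
          rw [neg_smul, ← smul_neg, ← h4, smul_smul, inv_mul_cancel₀ hc, one_smul]
        rw [h3]
        exact h.smul _ h2
  exact fun b e => key _ b e rfl

/-- the Euler operator -/
noncomputable def Dt (F : Ser B) : Ser B :=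
  PowerSeries.mk fun b => PowerSeries.mk fun e => ((b + e : ℕ) : B) * cf b e F

theorem cf_Dt (b e : ℕ) (F : Ser B) : cf b e (Dt F) = ((b + e : ℕ) : B) * cf b e F := by
  unfold Dt
  rw [cf, PowerSeries.coeff_mk, PowerSeries.coeff_mk]

theorem Dt_mul (F G : Ser B) : Dt (F * G) = Dt F * G + F * Dt G := by
  apply cf_ext
  intro b e
  rw [cf_Dt, cf_add, cf_mul, cf_mul, cf_mul, mul_sum, ← sum_add_distrib]
  refine sum_congr rfl fun i hi => ?_
  rw [mul_sum, ← sum_add_distrib]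
  refine sum_congr rfl fun j hj => ?_
  rw [cf_Dt, cf_Dt, ← (mem_antidiagonal.1 hi), ← (mem_antidiagonal.1 hj)]
  push_cast
  ring

theorem Dt_one : Dt (1 : Ser B) = 0 := by
  apply cf_ext
  intro b e
  rw [cf_Dt, cf_one, cf_zero]
  split_ifs with h
  · rw [h.1, h.2]; simp
  · simp

theorem Dt_prod {ι : Type} [DecidableEq ι] (s : Finset ι) (A S : ι → Ser B)
    (h : ∀ i ∈ s, Dt (A i) = A i * S i) : Dt (∏ i ∈ s, A i) = (∏ i ∈ s, A i) * ∑ i ∈ s, S i := by
  induction s using Finset.induction_on with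
  | empty => simp [Dt_one]
  | insert a s ha ih =>
    rw [prod_insert ha, sum_insert ha, Dt_mul, h a (mem_insert_self _ _),
      ih fun i hi => h i (mem_insert_of_mem hi)]
    ring

theorem natCast_smul' (n : ℕ) (f : B) : ((n : ℕ) : B) * f = (n : K) • f := by
  rw [Algebra.smul_def, map_natCast]

theorem InB.Dt' {M : ℕ → ℕ → Submodule K B} {F : Ser B} (hF : InB M F) : InB M (Dt F) :=
  fun b e => by
    rw [cf_Dt, natCast_smul' (K := K)]
    exact (M b e).smul_mem _ (hF b e)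

/-- the logarithmic derivative with respect to the Euler operator -/
theorem exists_logDt (h : Cost K ν) {M : ℕ → ℕ → Submodule K B} (hM : Big M) {x y : ℝ}
    (hx : 0 < x) (hy : 0 < y) {F : Ser B} (hF : InB M F) {c : K} (hc : c ≠ 0)
    (h0 : cf 0 0 F = algebraMap K B c) (hB : Bd1 ν x y F) :
    ∃ S : Ser B, Dt F = F * S ∧ InB M S ∧ cf 0 0 S = 0 ∧ Bd4 ν x y S := by
  obtain ⟨G, hG⟩ := exists_inv hc h0
  refine ⟨Dt F * G, ?_, (InB.Dt' hF).mul hM (hF.inv hM hG hc h0), ?_, ?_⟩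
  · rw [mul_left_comm, hG, mul_one]
  · rw [cf_zero_zero_mul, cf_Dt]
    simp
  · apply Bd4.mul_of_zero h hx hy
    · rw [cf_Dt]; simp
    · intro b e hbe
      rw [cf_Dt, natCast_smul' (K := K)]
      exact h.smul _ (hB b e hbe)
    · exact Bd4.inv h hx hy hG hc h0 hB

/-- recovering a series from its logarithmic derivative -/
theorem Bd4.of_logDt [CharZero K] (h : Cost K ν) {x y : ℝ} (hx : 0 < x) (hy : 0 < y)
    {G S : Ser B} (hS : Dt G = G * S) (h0 : ν (cf 0 0 G) 1) (hS0 : cf 0 0 S = 0)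
    (hB : Bd1 ν x y S) : Bd4 ν x y G := by
  have key : ∀ n b e, b + e = n → ν (cf b e G) (4 ^ (b + e) * x ^ b * y ^ e) := by
    intro n
    induction n using Nat.strong_induction_on with
    | _ n ih =>
      intro b e hbe
      by_cases hb : b = 0 ∧ e = 0
      · obtain ⟨rfl, rfl⟩ := hb
        simpa using h0
      · have h1 := cf_mul' b e S G
        rw [mul_comm S G, ← hS, hS0, zero_mul, zero_add, cf_Dt, natCast_smul' (K := K)] at h1
        have h2 := conv h hx hy b e hB (H := G) (fun i j hij => ih (i + j) (hbe ▸ hij) i j rfl)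
        rw [← h1] at h2
        have hne : ((b + e : ℕ) : K) ≠ 0 := by
          rw [Nat.cast_ne_zero]
          omega
        have h3 := h.smul ((b + e : ℕ) : K)⁻¹ h2
        rwa [smul_smul, inv_mul_cancel₀ hne, one_smul] at h3
  exact fun b e => key _ b e rfl

theorem Bd1.mono (h : Cost K ν) {x y x' y' : ℝ} (hx : 0 < x) (hy : 0 < y) (hxx : x ≤ x')
    (hyy : y ≤ y') {F : Ser B} (hF : Bd1 ν x y F) : Bd1 ν x' y' F := by
  intro b e hbe
  refine h.mono (hF b e hbe) ?_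
  apply mul_le_mul (pow_le_pow_left₀ hx.le hxx b) (pow_le_pow_left₀ hy.le hyy e)
    (by positivity) (pow_nonneg (hx.le.trans hxx) _)

/-- the numerical threshold condition -/
def NumThr (m HU HV x y x' y' : ℝ) : Prop :=
  ∀ b e : ℕ, (b, e) ≠ (0, 0) → m * 4 ^ (b + e) * x ^ b * y ^ e ≤ x' ^ b * y' ^ e ∨
    HU ^ b ≤ x' ^ b * y' ^ e ∨ HV ^ e ≤ x' ^ b * y' ^ e

/-- the leaf bounds -/
structure Leaf (M : ℕ → ℕ → Submodule K B) (ν : B → ℝ → Prop) (HU HV : ℝ) : Prop where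
  left : ∀ {b e : ℕ} {f : B}, f ∈ M b e → ν f (HU ^ b)
  right : ∀ {b e : ℕ} {f : B}, f ∈ M b e → ν f (HV ^ e)

/-- the threshold: a sum of `m` series with small coefficients -/
theorem sum_thr (h : Cost K ν) {M : ℕ → ℕ → Submodule K B} {HU HV x y x' y' : ℝ} {m : ℕ}
    (hL : Leaf M ν HU HV) (hx : 0 < x) (hy : 0 < y) (hnum : NumThr m HU HV x y x' y')
    {ι : Type} (s : Finset ι) (hs : s.card ≤ m) (S : ι → Ser B) (hM : ∀ i ∈ s, InB M (S i))
    (hS : ∀ i ∈ s, Bd4 ν x y (S i)) : Bd1 ν x' y' (∑ i ∈ s, S i) := by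
  intro b e hbe
  have hmem : cf b e (∑ i ∈ s, S i) ∈ M b e := InB.sum s S hM b e
  rcases hnum b e hbe with h1 | h1 | h1
  · refine h.mono ?_ h1
    rw [cf_sum]
    refine h.mono (h.sum s _ (fun _ => 4 ^ (b + e) * x ^ b * y ^ e) fun i hi => hS i hi b e) ?_
    rw [sum_const, nsmul_eq_mul]
    have h2 : (s.card : ℝ) ≤ m := by exact_mod_cast hs
    have h3 : 0 ≤ 4 ^ (b + e) * x ^ b * y ^ e := by positivity
    calc (s.card : ℝ) * (4 ^ (b + e) * x ^ b * y ^ e) ≤ m * (4 ^ (b + e) * x ^ b * y ^ e) :=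
          mul_le_mul_of_nonneg_right h2 h3
      _ = _ := by ring
  · exact h.mono (hL.left hmem) h1
  · exact h.mono (hL.right hmem) h1

/-- a product gate -/
theorem prod_step [CharZero K] (h : Cost K ν) {M : ℕ → ℕ → Submodule K B} (hM : Big M)
    {HU HV x y x' y' : ℝ} {m : ℕ} (hL : Leaf M ν HU HV) (hx : 0 < x) (hy : 0 < y)
    (hxx : x ≤ x') (hyy : y ≤ y') (hnum : NumThr m HU HV x y x' y')
    {ι : Type} (s : Finset ι) (hs : s.card ≤ m) (A : ι → Ser B) (c : ι → K)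
    (hA : ∀ i ∈ s, InB M (A i)) (hc : ∀ i ∈ s, cf 0 0 (A i) = algebraMap K B (c i))
    (hB : ∀ i ∈ s, Bd1 ν x y (A i)) : Bd4 ν x' y' (∏ i ∈ s, A i) := by
  classical
  have hx' : 0 < x' := lt_of_lt_of_le hx hxx
  have hy' : 0 < y' := lt_of_lt_of_le hy hyy
  rw [← prod_filter_mul_prod_filter_not s (fun i => c i = 0)]
  -- the factors with nonzero constant term
  have hN : Bd4 ν x' y' (∏ i ∈ s with ¬c i = 0, A i) := by
    have hlog : ∀ i ∈ s.filter (fun i => ¬c i = 0), ∃ S : Ser B, Dt (A i) = A i * S ∧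
        InB M S ∧ cf 0 0 S = 0 ∧ Bd4 ν x y S := by
      intro i hi
      rw [mem_filter] at hi
      exact exists_logDt h hM hx hy (hA i hi.1) hi.2 (hc i hi.1) (hB i hi.1)
    choose! S hS1 hS2 hS3 hS4 using hlog
    apply Bd4.of_logDt h hx' hy' (Dt_prod _ A S hS1)
    · have : cf 0 0 (∏ i ∈ s with ¬c i = 0, A i) =
          algebraMap K B (∏ i ∈ s with ¬c i = 0, c i) := by
        rw [← cf0_apply, map_prod, map_prod]
        refine prod_congr rfl fun i hi => ?_
        rw [cf0_apply]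
        exact hc i (mem_filter.1 hi).1
      rw [this]
      exact h.scalar _
    · rw [cf_sum]
      exact sum_eq_zero hS3
    · exact sum_thr h hL hx hy hnum _ ((card_filter_le _ _).trans hs) S hS2 hS4
  -- the others
  have hZ : ∀ t : Finset ι, (∀ i ∈ t, cf 0 0 (A i) = 0 ∧ Bd1 ν x' y' (A i)) →
      Bd4 ν x' y' ((∏ i ∈ t, A i) * ∏ i ∈ s with ¬c i = 0, A i) := by
    intro t
    induction t using Finset.induction_on with
    | empty => intro _; simpa using hN
    | insert i t hi ih =>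
      intro ht
      rw [prod_insert hi, mul_assoc]
      obtain ⟨h1, h2⟩ := ht i (mem_insert_self _ _)
      exact Bd4.mul_of_zero h hx' hy' h1 h2 (ih fun j hj => ht j (mem_insert_of_mem hj))
  apply hZ
  intro i hi
  rw [mem_filter] at hi
  refine ⟨?_, Bd1.mono h hx hy hxx hyy (hB i hi.1)⟩
  rw [hc i hi.1, hi.2, map_zero]

end Pool.Agent.Helper41.CD
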